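import Mathlib

/-!
# MAX is not the ideal generated by Gamma

`ℕ+ = {1, 2, 3, ...}` and `Ultrafilter ℕ+` is its Stone-Čech compactification `βℕ`
(Mathlib's topology, generated by the sets `{F | A ∈ F}`).
-/

namespace Pool.Agent.Results.MP_34bddf_lc.MaxNotIdealGenByGamma

/-- The extension of an operation `op` on the positive integers to ultrafilters:
`A ∈ star op F G` iff `{n | {m | op n m ∈ A} ∈ G} ∈ F` (see `mem_star`). -/
def star (op : ℕ+ → ℕ+ → ℕ+) (F G : Ultrafilter ℕ+) : Ultrafilter ℕ+ :=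
  Ultrafilter.bind F (fun n => Ultrafilter.map (op n) G)

theorem mem_star (op : ℕ+ → ℕ+ → ℕ+) (F G : Ultrafilter ℕ+) (A : Set ℕ+) :
    A ∈ star op F G ↔ {n | {m | op n m ∈ A} ∈ G} ∈ F := Iff.rfl

/-- Addition of ultrafilters. -/
def uadd (F G : Ultrafilter ℕ+) : Ultrafilter ℕ+ := star (fun n m => n + m) F G

/-- Multiplication of ultrafilters. -/
def umul (F G : Ultrafilter ℕ+) : Ultrafilter ℕ+ := star (fun n m => n * m) F G

/-- `umul` and `uadd` are the operations of Mathlib's file on Hindman's theorem. -/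
theorem umul_eq (F G : Ultrafilter ℕ+) : umul F G = Ultrafilter.mul.mul F G := rfl

theorem uadd_eq (F G : Ultrafilter ℕ+) : uadd F G = Ultrafilter.add.add F G := rfl

/-- The ultrafilters divisible by every positive integer: every set `n ℕ` is a member. -/
def MAX : Set (Ultrafilter ℕ+) := {F | ∀ n : ℕ+, {m : ℕ+ | n ∣ m} ∈ F}

/-- The topological closure of the set of additive idempotents. -/
def Gamma : Set (Ultrafilter ℕ+) := closure {F | uadd F F = F}

/-- Two-sided ideals for the extended multiplication. -/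
def IsMulIdeal (I : Set (Ultrafilter ℕ+)) : Prop :=
  I.Nonempty ∧ ∀ F, ∀ G ∈ I, umul F G ∈ I ∧ umul G F ∈ I

/-- The smallest multiplicative ideal containing `S`. -/
def idealGen (S : Set (Ultrafilter ℕ+)) : Set (Ultrafilter ℕ+) :=
  ⋂₀ {I | IsMulIdeal I ∧ S ⊆ I}

/-- The ultrafilters all of whose members contain a Schur triple `a, b, a + b`. -/
def SchurU : Set (Ultrafilter ℕ+) := {F | ∀ A ∈ F, ∃ a b, a ∈ A ∧ b ∈ A ∧ a + b ∈ A}

theorem isClosed_schurU : IsClosed SchurU := by
  have h : SchurU = ⋂ (A : Set ℕ+) (_ : ¬ ∃ a b, a ∈ A ∧ b ∈ A ∧ a + b ∈ A),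
      {F : Ultrafilter ℕ+ | Aᶜ ∈ F} := by
    ext F
    simp only [SchurU, Set.mem_ofPred_eq, Set.mem_iInter]
    constructor
    · intro h A hA
      rw [Ultrafilter.compl_mem_iff_notMem]
      exact fun hAF => hA (h A hAF)
    · intro h A hAF
      by_contra hA
      exact (Ultrafilter.compl_mem_iff_notMem.mp (h A hA)) hAF
  rw [h]
  exact isClosed_iInter fun A => isClosed_iInter fun _ => ultrafilter_isClosed_basic _

theorem idem_sub : {F : Ultrafilter ℕ+ | uadd F F = F} ⊆ SchurU := by
  intro F hF A hA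
  have hF' : uadd F F = F := hF
  have h1 : {n | {m | n + m ∈ A} ∈ F} ∈ F := by
    have : A ∈ uadd F F := by rw [hF']; exact hA
    exact this
  obtain ⟨a, ha, ha'⟩ := Ultrafilter.nonempty_of_mem (Filter.inter_mem h1 hA)
  have ha2 : {m | a + m ∈ A} ∈ F := ha
  obtain ⟨b, hb, hb'⟩ := Ultrafilter.nonempty_of_mem (Filter.inter_mem ha2 hA)
  exact ⟨a, b, ha', hb', hb⟩

theorem gamma_sub : Gamma ⊆ SchurU := closure_minimal idem_sub isClosed_schurU

theorem schurU_ideal (h : SchurU.Nonempty) : IsMulIdeal SchurU := by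
  refine ⟨h, fun F G hG => ⟨fun A hA => ?_, fun A hA => ?_⟩⟩
  · have hA' : {n | {m | n * m ∈ A} ∈ G} ∈ F := hA
    obtain ⟨n, hn⟩ := Ultrafilter.nonempty_of_mem hA'
    obtain ⟨a, b, ha, hb, hab⟩ := hG _ hn
    refine ⟨n * a, n * b, ha, hb, ?_⟩
    rw [← mul_add]; exact hab
  · have hA' : {n | {m | n * m ∈ A} ∈ F} ∈ G := hA
    obtain ⟨a, b, ha, hb, hab⟩ := hG _ hA'
    obtain ⟨m, hm, hm'⟩ := Ultrafilter.nonempty_of_mem
      (Filter.inter_mem (Filter.inter_mem ha hb) hab)
    refine ⟨a * m, b * m, hm.1, hm.2, ?_⟩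
    rw [← add_mul]; exact hm'

/-- The factorial as a positive integer. -/
def fact (n : ℕ) : ℕ+ := ⟨n.factorial, n.factorial_pos⟩

theorem no_schur : ¬ ∃ a b, a ∈ fact '' {n | 2 ≤ n} ∧ b ∈ fact '' {n | 2 ≤ n} ∧
    a + b ∈ fact '' {n | 2 ≤ n} := by
  rintro ⟨_, _, ⟨a, ha, rfl⟩, ⟨b, hb, rfl⟩, ⟨c, hc, h⟩⟩
  have h' : c.factorial = a.factorial + b.factorial := by
    exact congrArg PNat.val h
  have key : ∀ a b c : ℕ, 2 ≤ b → a ≤ b → c.factorial = a.factorial + b.factorial → False := by
    intro a b c hb hab h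
    have h1 : a.factorial ≤ b.factorial := Nat.factorial_le hab
    have h2 := b.factorial_pos
    have h3 := a.factorial_pos
    have hcb : b < c := by
      by_contra hcb
      have := Nat.factorial_le (not_lt.mp hcb)
      omega
    have h4 : (b + 1).factorial ≤ c.factorial := Nat.factorial_le hcb
    rw [Nat.factorial_succ] at h4
    nlinarith
  rcases le_total a b with hab | hab
  · exact key a b c hb hab h'
  · exact key b a c ha hab (by omega)

/-- **Answer.** `MAX` is not the multiplicative ideal generated by `Gamma`; it is not even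
contained in the topological closure of that ideal. -/
theorem result : MAX ≠ idealGen Gamma ∧ ¬ MAX ⊆ closure (idealGen Gamma) := by
  have key : ¬ MAX ⊆ closure (idealGen Gamma) := by
    intro hsub
    let F : Ultrafilter ℕ+ := Ultrafilter.map fact (Filter.hyperfilter ℕ)
    have hbig : ∀ k : ℕ, {n | k ≤ n} ∈ Filter.hyperfilter ℕ := by
      intro k
      apply Filter.compl_mem_hyperfilter_of_finite (s := {n | n < k}) (Set.finite_lt_nat k) |> fun h => ?_
      have he : ({n | n < k} : Set ℕ)ᶜ = {n | k ≤ n} := by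
        ext n; simp
      rw [he] at h
      exact h
    have hF : F ∈ MAX := by
      intro n
      show fact ⁻¹' {m : ℕ+ | n ∣ m} ∈ Filter.hyperfilter ℕ
      refine Filter.mem_of_superset (hbig n) fun k hk => ?_
      show n ∣ fact k
      rw [PNat.dvd_iff]
      exact Nat.dvd_factorial n.pos hk
    have hA : fact '' {n | 2 ≤ n} ∈ F := by
      show fact ⁻¹' (fact '' {n | 2 ≤ n}) ∈ Filter.hyperfilter ℕ
      exact Filter.mem_of_superset (hbig 2) (Set.subset_preimage_image _ _)
    have hne : SchurU.Nonempty := by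
      obtain ⟨U, hU⟩ := @exists_idempotent_of_compact_t2_of_continuous_add_left
        (Ultrafilter ℕ+) _ Ultrafilter.addSemigroup _ _ _ Ultrafilter.continuous_add_left
      exact ⟨U, idem_sub hU⟩
    have hsub2 : idealGen Gamma ⊆ SchurU :=
      Set.sInter_subset_of_mem ⟨schurU_ideal hne, gamma_sub⟩
    have hF2 : F ∈ SchurU := (closure_minimal hsub2 isClosed_schurU) (hsub hF)
    exact no_schur (hF2 _ hA)
  exact ⟨fun h => key (h ▸ subset_closure), key⟩

end Pool.Agent.Results.MP_34bddf_lc.MaxNotIdealGenByGamma
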